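import Mathlib
import Pool.Agent.H96MB.Magnus

set_option autoImplicit false

/-! The Magnus lemma (package L1). -/

namespace Pool.Agent.H57MG

open Pool.Agent.H96MB Pool.Agent.H18PC

/-- L1 -/
theorem magnus {Γ ι : Type*} [AddCommGroup Γ] (γ : ι → Γ) {H : Type*} [Group H]
    (A : Subgroup H) (hAn : A.Normal) (hA : ∀ x ∈ A, ∀ y ∈ A, x * y = y * x)
    (h : ι → H) (lift : Γ → H) (hl0 : lift 0 = 1)
    (hladd : ∀ s t, lift s * lift t * (lift (s + t))⁻¹ ∈ A)
    (hlγ : ∀ j, h j * (lift (γ j))⁻¹ ∈ A) :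
    ∃ p : W Γ ι → H, (∀ x y, IsMg γ x → IsMg γ y → p (x * y) = p x * p y) ∧
      ∀ j, p (E γ j) = h j := by
  classical
  letI cA : CommGroup A :=
    { (inferInstance : Group A) with
      mul_comm := fun x y => Subtype.ext (hA x.1 x.2 y.1 y.2) }
  have hmem : ∀ (t : Γ) (j : ι), lift t * h j * (lift (t + γ j))⁻¹ ∈ A := by
    intro t j
    have h1 : lift t * h j * (lift (t + γ j))⁻¹ =
        (lift t * (h j * (lift (γ j))⁻¹) * (lift t)⁻¹) *
          (lift t * lift (γ j) * (lift (t + γ j))⁻¹) := by group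
    rw [h1]
    exact A.mul_mem (hAn.conj_mem _ (hlγ j) _) (hladd t (γ j))
  let lamA : Γ × ι → A := fun q => ⟨lift q.1 * h q.2 * (lift (q.1 + γ q.2))⁻¹, hmem q.1 q.2⟩
  let fA : Γ → Γ → A := fun s t => ⟨lift s * lift t * (lift (s + t))⁻¹, hladd s t⟩
  let lam : (Γ × ι →₀ ℤ) →+ Additive A :=
    Finsupp.liftAddHom (fun q => zmultiplesHom (Additive A) (Additive.ofMul (lamA q)))
  let F : Γ → (Γ →₀ ℤ) →+ Additive A := fun s =>
    Finsupp.liftAddHom (fun t => zmultiplesHom (Additive A) (Additive.ofMul (fA s t)))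
  -- conjugation by `lift s` on `A`
  let cj : Γ → Additive A →+ Additive A := fun s =>
    MonoidHom.toAdditive
      { toFun := fun a : A => (⟨lift s * a.1 * (lift s)⁻¹, hAn.conj_mem _ a.2 _⟩ : A)
        map_one' := by apply Subtype.ext; simp
        map_mul' := by
          intro a b
          apply Subtype.ext
          show lift s * (a.1 * b.1) * (lift s)⁻¹ =
            (lift s * a.1 * (lift s)⁻¹) * (lift s * b.1 * (lift s)⁻¹)
          group }
  have hlams : ∀ q n, lam (Finsupp.single q n) = n • Additive.ofMul (lamA q) := by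
    intro q n
    simp [lam]
  have hFs : ∀ s t n, F s (Finsupp.single t n) = n • Additive.ofMul (fA s t) := by
    intro s t n
    simp [F]
  have hbds : ∀ (q : Γ × ι) (n : ℤ), bd γ (Finsupp.single q n) =
      n • (Finsupp.single (q.1 + γ q.2) 1 - Finsupp.single q.1 1) := by
    intro q n
    show Finsupp.mapDomain (fun p : Γ × ι => p.1 + γ p.2) (Finsupp.single q n) -
      Finsupp.mapDomain (fun p : Γ × ι => p.1) (Finsupp.single q n) = _
    rw [Finsupp.mapDomain_single, Finsupp.mapDomain_single, smul_sub]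
    simp
  -- the key relation
  have hkey : ∀ (s : Γ) (m : Γ × ι →₀ ℤ), cj s (lam m) = lam (shift s m) - F s (bd γ m) := by
    intro s m
    induction m using Finsupp.induction_linear with
    | zero => simp
    | add f g hf hg =>
      rw [map_add, map_add, map_add, map_add, map_add, map_add, hf, hg]
      abel
    | single q n =>
      obtain ⟨q1, q2⟩ := q
      rw [shift_single, hlams, hlams, hbds, map_zsmul, map_zsmul, map_sub, hFs, hFs, one_smul,
        one_smul, ← smul_sub]
      congr 1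
      have h1 : (cj s (Additive.ofMul (lamA (q1, q2))) : Additive A) = Additive.ofMul
          (⟨lift s * (lamA (q1, q2)).1 * (lift s)⁻¹, hAn.conj_mem _ (lamA (q1, q2)).2 _⟩ : A) := rfl
      rw [h1]
      have h2 : (⟨lift s * (lamA (q1, q2)).1 * (lift s)⁻¹, hAn.conj_mem _ (lamA (q1, q2)).2 _⟩ : A) =
          fA s q1 * lamA (s + q1, q2) * (fA s (q1 + γ q2))⁻¹ := by
        apply Subtype.ext
        show lift s * (lift q1 * h q2 * (lift (q1 + γ q2))⁻¹) * (lift s)⁻¹ =
          (lift s * lift q1 * (lift (s + q1))⁻¹) *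
            (lift (s + q1) * h q2 * (lift (s + q1 + γ q2))⁻¹) *
            (lift s * lift (q1 + γ q2) * (lift (s + (q1 + γ q2)))⁻¹)⁻¹
        rw [add_assoc]
        group
      rw [h2, ofMul_mul, ofMul_mul, ofMul_inv]
      abel
  let p : W Γ ι → H := fun w => ((lam w.m).toMul : A).1 * lift w.t
  refine ⟨p, ?_, ?_⟩
  · intro x y _ hy
    have h1 := hkey x.t y.m
    have hy' : bd γ y.m = Finsupp.single y.t 1 - Finsupp.single 0 1 := hy
    rw [hy', map_sub, hFs, hFs, one_smul, one_smul] at h1
    have h2 : fA x.t 0 = 1 := by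
      apply Subtype.ext
      show lift x.t * lift 0 * (lift (x.t + 0))⁻¹ = 1
      rw [hl0, add_zero]
      group
    rw [h2, ofMul_one, sub_zero] at h1
    -- in `H`
    have h1' : cj x.t (lam y.m) + Additive.ofMul (fA x.t y.t) = lam (shift x.t y.m) := by
      rw [h1, sub_add_cancel]
    have h6 : (lift x.t * ((lam y.m).toMul : A).1 * (lift x.t)⁻¹) *
          (lift x.t * lift y.t * (lift (x.t + y.t))⁻¹) =
        ((lam (shift x.t y.m)).toMul : A).1 :=
      congrArg (fun a : Additive A => ((a.toMul : A).1 : H)) h1'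
    show ((lam (x * y).m).toMul : A).1 * lift (x * y).t =
      (((lam x.m).toMul : A).1 * lift x.t) * (((lam y.m).toMul : A).1 * lift y.t)
    rw [mul_m, mul_t, map_add]
    have h5 : ((lam x.m + lam (shift x.t y.m)).toMul : A).1 =
        ((lam x.m).toMul : A).1 * ((lam (shift x.t y.m)).toMul : A).1 := rfl
    rw [h5]
    rw [← h6]
    group
  · intro j
    show ((lam (Finsupp.single (0, j) 1)).toMul : A).1 * lift (γ j) = h j
    rw [hlams, one_smul]
    show lift 0 * h j * (lift (0 + γ j))⁻¹ * lift (γ j) = h j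
    rw [hl0, zero_add]
    group

end Pool.Agent.H57MG
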